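import Pool.Agent.Lib.MP_8d5739_co.Main
import Pool.Agent.Lib.MP_8d5739_co.Sanity

/-!
The integral homology of the poset of set partitions with bounded block sizes need not be free:
the third reduced homology group of the order complex of `Π_{9,≤3}` has an element of order two.
-/

namespace Pool.Agent.Results.MP_8d5739_co.TorsionNineThree

open Pool.Agent.Lib.MP_8d5739_co

/-- `H̃_3(Δ(Π_{9,≤3}); ℤ)` has an element of order two. -/
theorem result : ∃ c : ReducedHomology (BPart 9 3) 3, addOrderOf c = 2 := main

end Pool.Agent.Results.MP_8d5739_co.TorsionNineThree
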